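import Mathlib
import Pool.Agent.U309.ZF.Stm

/-!
# Project ZF, package PI: at most `n` primes of a number field of degree `n` have norm `p`
-/

set_option autoImplicit false
set_option linter.deprecated false

open NumberField IsDedekindDomain

namespace Pool.Agent.U395.ZF

theorem t_PI : Pool.Agent.U309.ZF.S_PI := by
  classical
  intro K _ _ p hp
  let P : Ideal ℤ := Ideal.span {(p : ℤ)}
  have hp0 : (p : ℤ) ≠ 0 := by exact_mod_cast hp.ne_zero
  have hP0 : P ≠ ⊥ := by
    intro h
    exact hp0 (Ideal.span_singleton_eq_bot.mp h)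
  have hPp : P.IsPrime := (Ideal.span_singleton_prime hp0).mpr (Nat.prime_iff_prime_int.mp hp)
  have hPm : P.IsMaximal := hPp.isMaximal hP0
  have h1 : Finset.card (IsDedekindDomain.primesOverFinset P (𝓞 K)) ≤ Module.finrank ℚ K :=
    Ideal.card_primesOverFinset_le_finrank (𝓞 K) ℚ K hP0
  have hmem : ∀ v : HeightOneSpectrum (𝓞 K), Ideal.absNorm v.asIdeal = p →
      v.asIdeal ∈ IsDedekindDomain.primesOverFinset P (𝓞 K) := by
    intro v hv
    rw [IsDedekindDomain.mem_primesOverFinset_iff hP0]
    refine ⟨v.isPrime, ⟨?_⟩⟩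
    have hle : P ≤ v.asIdeal.under ℤ := by
      rw [Ideal.span_singleton_le_iff_mem, Ideal.under_def, Ideal.mem_comap]
      have := Ideal.absNorm_mem v.asIdeal
      rw [hv] at this
      simpa using this
    have hpr : (v.asIdeal.under ℤ).IsPrime := by
      have := v.isPrime
      infer_instance
    exact hPm.eq_of_le hpr.ne_top hle
  unfold Pool.Agent.U309.ZF.pi1
  let φ : {v : HeightOneSpectrum (𝓞 K) // Ideal.absNorm v.asIdeal = p} →
      (IsDedekindDomain.primesOverFinset P (𝓞 K)) := fun v => ⟨v.1.asIdeal, hmem v.1 v.2⟩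
  have hφ : Function.Injective φ := by
    intro v w h
    have h2 : v.1.asIdeal = w.1.asIdeal := congrArg Subtype.val h
    exact Subtype.ext (HeightOneSpectrum.ext h2)
  have h2 := Nat.card_le_card_of_injective φ hφ
  refine h2.trans ?_
  rw [Nat.card_eq_fintype_card, Fintype.card_coe]
  exact h1

end Pool.Agent.U395.ZF
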